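import Mathlib

set_option autoImplicit false

namespace Pool.Agent.Results.MP_5ec752_co.PairNineTwentyFour

/-- Type B regular sequences: built from `(1,1)` by adding at the left or right end an entry equal
to the sum of a nonempty block of consecutive entries already present. -/
inductive TypeBRegular : List ℕ → Prop
  | base : TypeBRegular [1, 1]
  | left (d w : List ℕ) (hd : TypeBRegular d) (hw : w ≠ []) (h : w <:+: d) :
      TypeBRegular (w.sum :: d)
  | right (d w : List ℕ) (hd : TypeBRegular d) (hw : w ≠ []) (h : w <:+: d) :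
      TypeBRegular (d ++ [w.sum])

/-- Type A regular sequences: as for type B, but the summed block must be immediately adjacent to
the new entry (an initial block for a new left entry, a final block for a new right entry). -/
inductive TypeARegular : List ℕ → Prop
  | base : TypeARegular [1, 1]
  | left (d w : List ℕ) (hd : TypeARegular d) (hw : w ≠ []) (h : w <+: d) :
      TypeARegular (w.sum :: d)
  | right (d w : List ℕ) (hd : TypeARegular d) (hw : w ≠ []) (h : w <:+ d) :
      TypeARegular (d ++ [w.sum])

/-- Lengths of type A regular sequences having a permutation of `ks` as a subsequence. -/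
def lengthsA (ks : List ℕ) : Set ℕ :=
  {n | ∃ d : List ℕ, TypeARegular d ∧ d.length = n ∧ ∃ p : List ℕ, p.Perm ks ∧ p.Sublist d}

/-- Lengths of type B regular sequences having a permutation of `ks` as a subsequence. -/
def lengthsB (ks : List ℕ) : Set ℕ :=
  {n | ∃ d : List ℕ, TypeBRegular d ∧ d.length = n ∧ ∃ p : List ℕ, p.Perm ks ∧ p.Sublist d}

/-- One-step extensions of type A. -/
def extA (d : List ℕ) : List (List ℕ) :=
  ((d.inits.filter fun w => !w.isEmpty).map fun w => w.sum :: d) ++
    ((d.tails.filter fun w => !w.isEmpty).map fun w => d ++ [w.sum])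

/-- All type A regular sequences with `m + 2` terms. -/
def genA : ℕ → List (List ℕ)
  | 0 => [[1, 1]]
  | m + 1 => (genA m).flatMap extA

theorem mem_genA {d : List ℕ} (h : TypeARegular d) : ∃ m, d.length = m + 2 ∧ d ∈ genA m := by
  induction h with
  | base => exact ⟨0, rfl, by simp [genA]⟩
  | left d w hd hw h ih =>
      obtain ⟨m, hm, hmem⟩ := ih
      refine ⟨m + 1, by simp [hm], ?_⟩
      simp only [genA, List.mem_flatMap]
      refine ⟨d, hmem, ?_⟩
      simp only [extA, List.mem_append, List.mem_map, List.mem_filter, List.mem_inits]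
      exact Or.inl ⟨w, ⟨h, by cases w <;> simp_all⟩, rfl⟩
  | right d w hd hw h ih =>
      obtain ⟨m, hm, hmem⟩ := ih
      refine ⟨m + 1, by simp [hm], ?_⟩
      simp only [genA, List.mem_flatMap]
      refine ⟨d, hmem, ?_⟩
      simp only [extA, List.mem_append, List.mem_map, List.mem_filter, List.mem_tails]
      exact Or.inr ⟨w, ⟨h, by cases w <;> simp_all⟩, rfl⟩

theorem check5 : (genA 5).all (fun d => !(d.contains 9 && d.contains 24)) = true := by
  decide +kernel

theorem check4 : (genA 4).all (fun d => !(d.contains 9 && d.contains 24)) = true := by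
  decide +kernel

theorem check3 : (genA 3).all (fun d => !(d.contains 9 && d.contains 24)) = true := by
  decide +kernel

theorem check2 : (genA 2).all (fun d => !(d.contains 9 && d.contains 24)) = true := by
  decide +kernel

theorem check1 : (genA 1).all (fun d => !(d.contains 9 && d.contains 24)) = true := by
  decide +kernel

theorem check0 : (genA 0).all (fun d => !(d.contains 9 && d.contains 24)) = true := by
  decide +kernel

theorem mem_of_perm_sublist {d : List ℕ} (h : ∃ p : List ℕ, p.Perm [9, 24] ∧ p.Sublist d) :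
    9 ∈ d ∧ 24 ∈ d := by
  obtain ⟨p, hp, hs⟩ := h
  exact ⟨hs.subset (hp.mem_iff.2 (by simp)), hs.subset (hp.mem_iff.2 (by simp))⟩

theorem noA {d : List ℕ} (h : TypeARegular d) (h9 : 9 ∈ d) (h24 : 24 ∈ d) : 8 ≤ d.length := by
  obtain ⟨m, hm, hmem⟩ := mem_genA h
  by_contra hlt
  have hm5 : m ≤ 5 := by omega
  have key : ∀ {l : List (List ℕ)},
      l.all (fun d => !(d.contains 9 && d.contains 24)) = true → d ∉ l := by
    intro l hl hdl
    have := List.all_eq_true.1 hl d hdl
    simp [h9, h24] at this
  interval_cases m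
  · exact key check0 hmem
  · exact key check1 hmem
  · exact key check2 hmem
  · exact key check3 hmem
  · exact key check4 hmem
  · exact key check5 hmem

theorem boundB {d : List ℕ} (h : TypeBRegular d) :
    2 ≤ d.length ∧ d.sum ≤ 2 ^ (d.length - 1) ∧ ∀ x ∈ d, x ≤ 2 ^ (d.length - 2) := by
  have sum_le : ∀ {w d : List ℕ}, w <:+: d → w.sum ≤ d.sum := by
    intro w d hw
    exact hw.sublist.sum_le_sum (fun _ _ => Nat.zero_le _)
  induction h with
  | base => simp
  | left d w hd hw h ih =>
      obtain ⟨h2, hs, hx⟩ := ih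
      obtain ⟨n, hn⟩ : ∃ n, d.length = n + 2 := ⟨d.length - 2, by omega⟩
      have hws := sum_le h
      simp only [List.length_cons, List.sum_cons, List.mem_cons, hn] at *
      refine ⟨by omega, ?_, ?_⟩
      · have : 2 ^ (n + 2 + 1 - 1) = 2 * 2 ^ (n + 2 - 1) := by
          rw [show n + 2 + 1 - 1 = (n + 2 - 1) + 1 by omega, pow_succ]; ring
        omega
      · rintro x (rfl | hx')
        · have : n + 2 + 1 - 2 = n + 2 - 1 := by omega
          rw [this]; omega
        · refine (hx x hx').trans (Nat.pow_le_pow_right (by norm_num) (by omega))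
  | right d w hd hw h ih =>
      obtain ⟨h2, hs, hx⟩ := ih
      obtain ⟨n, hn⟩ : ∃ n, d.length = n + 2 := ⟨d.length - 2, by omega⟩
      have hws := sum_le h
      simp only [List.length_append, List.length_singleton, List.sum_append, List.sum_singleton,
        List.mem_append, List.mem_singleton, hn] at *
      refine ⟨by omega, ?_, ?_⟩
      · have : 2 ^ (n + 2 + 1 - 1) = 2 * 2 ^ (n + 2 - 1) := by
          rw [show n + 2 + 1 - 1 = (n + 2 - 1) + 1 by omega, pow_succ]; ring
        omega
      · rintro x (hx' | rfl)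
        · refine (hx x hx').trans (Nat.pow_le_pow_right (by norm_num) (by omega))
        · have : n + 2 + 1 - 2 = n + 2 - 1 := by omega
          rw [this]; omega

theorem noB {d : List ℕ} (h : TypeBRegular d) (h24 : 24 ∈ d) : 7 ≤ d.length := by
  obtain ⟨h2, -, hx⟩ := boundB h
  by_contra hlt
  have h1 := hx 24 h24
  have h3 : 2 ^ (d.length - 2) ≤ 2 ^ 4 := Nat.pow_le_pow_right (by norm_num) (by omega)
  omega

theorem seqA : TypeARegular [6, 4, 2, 1, 1, 1, 9, 24] := by
  have h0 := TypeARegular.base
  have h1 : TypeARegular [1, 1, 1] := TypeARegular.left _ [1] h0 (by simp) (by decide)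
  have h2 : TypeARegular [2, 1, 1, 1] := TypeARegular.left _ [1, 1] h1 (by simp) (by decide)
  have h3 : TypeARegular [4, 2, 1, 1, 1] := TypeARegular.left _ [2, 1, 1] h2 (by simp) (by decide)
  have h4 : TypeARegular [6, 4, 2, 1, 1, 1] := TypeARegular.left _ [4, 2] h3 (by simp) (by decide)
  have h5 : TypeARegular [6, 4, 2, 1, 1, 1, 9] :=
    TypeARegular.right _ [4, 2, 1, 1, 1] h4 (by simp) (by decide)
  exact TypeARegular.right _ [6, 4, 2, 1, 1, 1, 9] h5 (by simp) (by decide)

theorem seqB : TypeBRegular [7, 1, 1, 2, 4, 9, 24] := by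
  have h0 := TypeBRegular.base
  have h1 : TypeBRegular [1, 1, 2] := TypeBRegular.right _ [1, 1] h0 (by simp) (by decide)
  have h2 : TypeBRegular [1, 1, 2, 4] := TypeBRegular.right _ [1, 1, 2] h1 (by simp) (by decide)
  have h3 : TypeBRegular [7, 1, 1, 2, 4] := TypeBRegular.left _ [1, 2, 4] h2 (by simp) (by decide)
  have h4 : TypeBRegular [7, 1, 1, 2, 4, 9] :=
    TypeBRegular.right _ [7, 1, 1] h3 (by simp) (by decide)
  exact TypeBRegular.right _ [7, 1, 1, 2, 4, 9] h4 (by simp) (by decide)

/-- The least length of a type A regular sequence containing `9` and `24` is `8`, while the least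
length of a type B regular sequence containing them is `7`. -/
theorem result : IsLeast (lengthsA [9, 24]) 8 ∧ IsLeast (lengthsB [9, 24]) 7 := by
  refine ⟨⟨⟨_, seqA, rfl, [9, 24], List.Perm.refl _, by decide⟩, ?_⟩,
    ⟨⟨_, seqB, rfl, [9, 24], List.Perm.refl _, by decide⟩, ?_⟩⟩
  · rintro n ⟨d, hd, rfl, hp⟩
    obtain ⟨h9, h24⟩ := mem_of_perm_sublist hp
    exact noA hd h9 h24
  · rintro n ⟨d, hd, rfl, hp⟩
    exact noB hd (mem_of_perm_sublist hp).2

end Pool.Agent.Results.MP_5ec752_co.PairNineTwentyFour
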